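import Pool.Agent.H540PL.Upper

set_option autoImplicit false

/-!
# Hausdorff dimension for linear forms with positive coefficients (MP_18f540_nt)

For every real `w > 2` the set `E w` of the points `(ξ, η)` of the Euclidean plane for which
`|p ξ + q η + r| < c max(p, q) ^ (-w)` has, for some `c > 0`, infinitely many integer solutions
`(p, q, r)` with `p > 0` and `q > 0` has Hausdorff dimension `1 + 3 / (w + 1)`.

Lower bound: pairwise independence of the events `‖p ξ + q η‖ ≤ e` on the torus for coprime pairs
and a second moment bound give, for almost every `η` and almost every `ξ`, small values at infinitely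
many scales; a one-dimensional mass transference principle in the line with ordinate `η` gives a
lower bound for the contents of the slices, and this is integrated over `η`.
Upper bound: covering.
-/

namespace Pool.Agent.Results.MP_18f540_nt.DimExact

/-- `E w`: the points `x = (ξ, η)` of the Euclidean plane for which there is a constant `c > 0` such
that `|p ξ + q η + r| < c (max {p, q}) ^ (-w)` holds for infinitely many integer triples
`t = (p, q, r)` with `p > 0` and `q > 0`. -/
def E (w : ℝ) : Set (EuclideanSpace ℝ (Fin 2)) :=
  {x | ∃ c : ℝ, 0 < c ∧ {t : ℤ × ℤ × ℤ | 0 < t.1 ∧ 0 < t.2.1 ∧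
    |(t.1 : ℝ) * x 0 + (t.2.1 : ℝ) * x 1 + (t.2.2 : ℝ)| <
      c * ((max t.1 t.2.1 : ℤ) : ℝ) ^ (-w)}.Infinite}

/-- **Full answer to Q1.** The Hausdorff dimension of `E w` is `1 + 3 / (w + 1)` for every real
`w > 2`. -/
theorem result (w : ℝ) (hw : 2 < w) : dimH (E w) = ENNReal.ofReal (1 + 3 / (w + 1)) :=
  le_antisymm (Pool.Agent.H540PL.upper hw) (Pool.Agent.H540PL.lower hw)

end Pool.Agent.Results.MP_18f540_nt.DimExact
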